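import Mathlib
import Pool.Agent.Q169.SI.Base
import Pool.Agent.Q169.SI.Local
import Pool.Agent.H826R2.Wein.Main3

/-! The Reeb flow on a covering of a closed contact manifold, and the discreteness criterion for
closed Reeb orbits. -/

open scoped Topology ContDiff Manifold
open Set Metric Bundle Filter Pool.Agent.Helper186 Pool.Agent.H826R2.Wein

noncomputable section

namespace Pool.Agent.Q195.WE

set_option linter.unusedSectionVars false

universe u

variable {E : Type u} [NormedAddCommGroup E] [NormedSpace ℝ E] [FiniteDimensional ℝ E]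
  {P : Type*} [TopologicalSpace P] [ChartedSpace E P] [IsManifold 𝓘(ℝ, E) ∞ P] [T2Space P]
  {β : (x : P) → TangentSpace 𝓘(ℝ, E) x →L[ℝ] ℝ} {R : (x : P) → TangentSpace 𝓘(ℝ, E) x}
  {Γ : Type*} [Group Γ] [MulAction Γ P]

/-- completeness of the Reeb field on a space with a cocompact group of strict contact maps -/
lemma exists_RF [SigmaCompactSpace P] (c : CD β R) (𝒟 : CDeck β Γ) :
    Nonempty (HF c (fun _ : P => (1:ℝ))) := by
  have : IsManifold 𝓘(ℝ, E) 1 P := IsManifold.of_le (n := ∞) (by simp)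
  have hs1 : ContMDiff 𝓘(ℝ, E) 𝓘(ℝ, ℝ) ∞ (fun _ : P => (1:ℝ)) := contMDiff_const
  obtain ⟨ε, hε, h⟩ := uniform_curves 𝒟.compact
    ({c.X (fun _ : P => (1:ℝ))} : Set ((x : P) → TangentSpace 𝓘(ℝ, E) x)) (by
      rintro W rfl
      exact c.smooth_X hs1) (by
      intro ψ hψ K hK
      have h3 : Continuous (fun x : P => dForm 𝓘(ℝ, E) ψ x (c.X (fun _ => (1:ℝ)) x)) := by
        have : ContMDiff 𝓘(ℝ, E) 𝓘(ℝ, ℝ) ∞
            (fun x => dForm 𝓘(ℝ, E) ψ x (c.X (fun _ => (1:ℝ)) x)) := fun x =>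
          (smoothForm_dForm hψ).comp (c.smooth_X hs1 x) le_rfl
        exact this.continuous
      obtain ⟨L, hL⟩ := (hK.image h3.abs).bddAbove
      refine ⟨L, ?_⟩
      rintro W rfl x hx
      exact hL ⟨x, hx, rfl⟩)
  have hcomp : ∀ x, ∃ γ : ℝ → P, γ 0 = x ∧
      IsMIntegralCurve (I := 𝓘(ℝ, E)) γ (c.X (fun _ => (1:ℝ))) := by
    intro x
    refine exists_isMIntegralCurve_of_isMIntegralCurveOn
      ((c.smooth_X hs1).of_le (by simp)) hε ?_ x
    intro y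
    obtain ⟨γ, hγ⟩ := 𝒟.cover y
    obtain ⟨r, hr0, hr⟩ := h _ rfl _ hγ
    refine ⟨fun t => γ⁻¹ • r t, by simp [hr0], ?_⟩
    intro t ht
    have h1 : HasMFDerivAt 𝓘(ℝ, ℝ) 𝓘(ℝ, E) r t
      ((1 : ℝ →L[ℝ] ℝ).smulRight (c.X (fun _ => (1:ℝ)) (r t))) :=
      (hr t ht).hasMFDerivAt (isOpen_Ioo.mem_nhds ht)
    have h2 := HasMFDerivAt.comp t (g := fun z : P => γ⁻¹ • z) (f := r)
      ((𝒟.smooth γ⁻¹).mdifferentiableAt (by simp)).hasMFDerivAt h1
    have h3 := (𝒟.cto γ⁻¹).push_X c hs1 (h := fun _ => (1:ℝ)) (fun z => rfl) (r t)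
    refine (h2.congr_mfderiv ?_).hasMFDerivWithinAt
    refine ContinuousLinearMap.ext fun (a : ℝ) => ?_
    show (mfderiv 𝓘(ℝ, E) 𝓘(ℝ, E) (fun z : P => γ⁻¹ • z) (r t))
      ((a • c.X (fun _ => (1:ℝ)) (r t) : E)) = a • c.X (fun _ => (1:ℝ)) (γ⁻¹ • r t)
    have h4 : (mfderiv 𝓘(ℝ, E) 𝓘(ℝ, E) (fun z : P => γ⁻¹ • z) (r t))
      ((a • c.X (fun _ => (1:ℝ)) (r t) : E)) =
      (a • (mfderiv 𝓘(ℝ, E) 𝓘(ℝ, E) (fun z : P => γ⁻¹ • z) (r t)
        (c.X (fun _ => (1:ℝ)) (r t)) : E) : E) :=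
      map_smul (mfderiv 𝓘(ℝ, E) 𝓘(ℝ, E) (fun z : P => γ⁻¹ • z) (r t)) _ _
    rw [h4]
    exact congrArg (fun w : E => a • w) h3
  choose Fl h0 hFl using hcomp
  exact ⟨⟨Fl, h0, hFl, hs1, fun x => by rw [Q169.SI.dForm_const]; rfl⟩⟩

section flow

variable {c : CD β R} (F : HF c (fun _ : P => (1:ℝ)))

include F in
lemma F_int (x : P) : IsMIntegralCurve (I := 𝓘(ℝ, E)) (F.Fl x) R := by
  have h := F.int x
  have e : c.X (fun _ => 1) = R := by ext1 x; exact Q169.SI.X_one c x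
  rw [e] at h
  exact h

lemma F_inv {V : Type*} [NormedAddCommGroup V] [NormedSpace ℝ V] {g : P → V}
    (hg : ContMDiff 𝓘(ℝ, E) 𝓘(ℝ, V) ∞ g)
    (hR : ∀ x, (mfderiv 𝓘(ℝ, E) 𝓘(ℝ, V) g x (R x) : V) = 0) (x : P) (t : ℝ) :
    g (F.Fl x t) = g x := by
  have h1 : ∀ s, HasDerivAt (fun s => g (F.Fl x s)) 0 s := by
    intro s
    have h2 := HasMFDerivAt.comp s (g := g) (f := F.Fl x)
      (hg.mdifferentiableAt (by simp)).hasMFDerivAt (F_int F x s)
    obtain ⟨L, hL⟩ : ∃ L : E →L[ℝ] V, L = mfderiv 𝓘(ℝ, E) 𝓘(ℝ, V) g (F.Fl x s) := ⟨_, rfl⟩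
    obtain ⟨r, hr⟩ : ∃ r : E, r = R (F.Fl x s) := ⟨_, rfl⟩
    have h3 : HasFDerivAt (fun s => g (F.Fl x s)) (L.comp ((1 : ℝ →L[ℝ] ℝ).smulRight r)) s := by
      rw [hL, hr]
      exact hasMFDerivAt_iff_hasFDerivAt.1 h2
    have h4 : L r = 0 := by
      rw [hL, hr]
      exact hR _
    have h5 := h3.hasDerivAt
    have h6 : (L.comp ((1 : ℝ →L[ℝ] ℝ).smulRight r)) 1 = 0 := by
      rw [ContinuousLinearMap.comp_apply, ContinuousLinearMap.smulRight_apply,
        one_apply_eq_self, one_smul, h4]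
    rw [h6] at h5
    exact h5
  have h2 := is_const_of_deriv_eq_zero (fun s => (h1 s).differentiableAt)
    (fun s => (h1 s).deriv) t 0
  rw [h2, F.zero]

lemma F_smul (𝒟 : CDeck β Γ) (γ : Γ) (x : P) (t : ℝ) : γ • F.Fl x t = F.Fl (γ • x) t :=
  F.conj (𝒟.cto γ) F (fun _ => rfl) x t

/-- local structure: near a point of maximal rank two points with the same values of the first
integrals are on the same short piece of an orbit -/
lemma local_arc {V : Type*} [NormedAddCommGroup V] [NormedSpace ℝ V] [FiniteDimensional ℝ V]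
    (G : P → V) (hGs : ContMDiff 𝓘(ℝ, E) 𝓘(ℝ, V) ∞ G)
    (hR : ∀ x, (mfderiv 𝓘(ℝ, E) 𝓘(ℝ, V) G x (R x) : V) = 0) (k : P)
    (hrank : ∀ v : TangentSpace 𝓘(ℝ, E) k, (mfderiv 𝓘(ℝ, E) 𝓘(ℝ, V) G k v : V) = 0 →
      ∃ a : ℝ, v = a • R k) :
    ∀ᶠ q in 𝓝 (k, k), G q.1 = G q.2 → ∃ τ : ℝ, |τ| < 1 / 2 ∧ F.Fl q.1 τ = q.2 := by
  classical
  have hRk : (R k : E) ≠ 0 := by
    intro h
    have h1 := c.reeb.unit k
    have h2 : β k (R k) = β k (0 : E) := congrArg (fun w : E => β k w) h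
    rw [h2] at h1
    have h3 : β k (0 : E) = 0 := map_zero (β k)
    rw [h3] at h1
    exact zero_ne_one h1
  set L : E →L[ℝ] V := mfderiv 𝓘(ℝ, E) 𝓘(ℝ, V) G k with hL
  let K : Submodule ℝ V := LinearMap.range (L : E →ₗ[ℝ] V)
  obtain ⟨pr0, hpr0⟩ := LinearMap.exists_leftInverse_of_injective K.subtype
    (LinearMap.ker_eq_bot.2 K.injective_subtype)
  let pr : V →L[ℝ] K := LinearMap.toContinuousLinearMap pr0
  have hpr : ∀ w : K, pr (w : V) = w := fun w => LinearMap.congr_fun hpr0 w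
  have hF' : ContMDiff 𝓘(ℝ, E) 𝓘(ℝ, K) ∞ (fun x => pr (G x)) :=
    pr.contDiff.contMDiff.comp hGs
  have hinv : ∀ x t, G (F.Fl x t) = G x := fun x t => F_inv F hGs hR x t
  obtain ⟨vh, hvh, hv0, h1, -⟩ := Q169.SI.local_solve (E := E) (V := ℝ) (K := K)
    (F := fun x => pr (G x)) (Ξ := F.Fl) (x₀ := k) (v₀ := (0:ℝ)) F.smooth_flow hF'
    (fun x v => by rw [hinv]) (F.zero k) (by
      intro w
      obtain ⟨v, hv⟩ := w.2
      refine ⟨v, ?_⟩
      have h1 : HasMFDerivAt 𝓘(ℝ, E) 𝓘(ℝ, K) (pr ∘ G) k (pr.comp L) :=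
        HasMFDerivAt.comp k pr.hasMFDerivAt (hGs.mdifferentiableAt (by simp)).hasMFDerivAt
      have h2 : (mfderiv 𝓘(ℝ, E) 𝓘(ℝ, K) (fun x => pr (G x)) k v : K) = pr (L v) :=
        DFunLike.congr_fun h1.mfderiv v
      refine h2.trans ?_
      have h3 : L v = (w : V) := hv
      rw [h3, hpr]) (by
      intro w hw
      have h1 := (F_int F k 0).mfderiv
      have h2 : (mfderiv 𝓘(ℝ, ℝ) 𝓘(ℝ, E) (F.Fl k) 0 w : E) = w • (R (F.Fl k 0) : E) :=
        DFunLike.congr_fun h1 w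
      rw [h2] at hw
      have h3 : ∀ z : P, z = k → w • (R z : E) = 0 → w = 0 := by
        rintro _ rfl hz
        exact (smul_eq_zero.1 hz).resolve_right hRk
      exact h3 _ (F.zero k) hw) (by
      obtain ⟨r, hr⟩ : ∃ r : E, r = R k := ⟨R k, rfl⟩
      have hr0 : r ≠ 0 := by rw [hr]; exact hRk
      have hLr : L r = 0 := by
        rw [hr]
        exact hR k
      have h2 : LinearMap.ker (L : E →ₗ[ℝ] V) = Submodule.span ℝ {r} := by
        apply le_antisymm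
        · intro v hv
          have hv' : L v = 0 := hv
          obtain ⟨a, ha⟩ := hrank v hv'
          refine Submodule.mem_span_singleton.2 ⟨a, ?_⟩
          rw [hr]
          exact ha.symm
        · rw [Submodule.span_singleton_le_iff_mem]
          exact hLr
      have h1 := LinearMap.finrank_range_add_finrank_ker (L : E →ₗ[ℝ] V)
      rw [h2, finrank_span_singleton hr0] at h1
      rw [← h1, Module.finrank_self])
  have hcont : ContinuousAt vh (k, k) := hvh.continuousAt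
  have h2 : ∀ᶠ q in 𝓝 (k, k), |vh q| < 1 / 2 := by
    have h3 : ∀ᶠ y in 𝓝 (vh (k, k)), |y| < 1 / 2 := by
      rw [hv0]
      exact (continuous_abs.continuousAt (x := (0:ℝ))).eventually_lt continuousAt_const
        (by norm_num)
    exact hcont.eventually h3
  filter_upwards [h1, h2] with q hq1 hq2 hq
  refine ⟨vh q, hq2, hq1 ?_⟩
  show pr (G q.1) = pr (G q.2)
  rw [hq]

end flow

end Pool.Agent.Q195.WE
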