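import Mathlib
import Pool.Agent.Q195.WE.Core

/-! The discreteness criterion for closed Reeb orbits. -/

open scoped Topology ContDiff Manifold
open Set Metric Bundle Filter Pool.Agent.Helper186 Pool.Agent.H826R2.Wein

noncomputable section

namespace Pool.Agent.Q195.WE

set_option linter.unusedSectionVars false

universe u

variable {E : Type u} [NormedAddCommGroup E] [NormedSpace ℝ E] [FiniteDimensional ℝ E]
  {P : Type*} [TopologicalSpace P] [ChartedSpace E P] [IsManifold 𝓘(ℝ, E) ∞ P] [T2Space P]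
  {β : (x : P) → TangentSpace 𝓘(ℝ, E) x →L[ℝ] ℝ} {R : (x : P) → TangentSpace 𝓘(ℝ, E) x}
  {Γ : Type*} [Group Γ] [MulAction Γ P]
  {c : CD β R} (F : HF c (fun _ : P => (1:ℝ)))

/-- **Criterion.**  If the values of the first integrals on the deck orbit of `x` are locally
finite, then the orbit of `x` closes up in the quotient. -/
theorem crit (𝒟 : CDeck β Γ) {V : Type*} [NormedAddCommGroup V] [NormedSpace ℝ V]
    [FiniteDimensional ℝ V] (G : P → V) (hG : ContMDiff 𝓘(ℝ, E) 𝓘(ℝ, V) ∞ G)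
    (hR : ∀ x, (mfderiv 𝓘(ℝ, E) 𝓘(ℝ, V) G x (R x) : V) = 0)
    (hrank : ∀ (k : P) (v : TangentSpace 𝓘(ℝ, E) k),
      (mfderiv 𝓘(ℝ, E) 𝓘(ℝ, V) G k v : V) = 0 → ∃ a : ℝ, v = a • R k) (x : P)
    (hfin : ∀ K : Set V, IsCompact K → {w | w ∈ K ∧ ∃ γ : Γ, w = G (γ • x)}.Finite) :
    ∃ T : ℝ, 0 < T ∧ ∃ γ : Γ, F.Fl x T = γ • x := by
  classical
  have hGc : Continuous G := hG.continuous
  -- the covering of the compact domain
  have hV : ∀ k : P, ∃ O ∈ 𝓝 k, ∀ a ∈ O, ∀ b ∈ O, G a = G b →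
      ∃ τ : ℝ, |τ| < 1 / 2 ∧ F.Fl a τ = b := by
    intro k
    have h1 := local_arc F G hG hR k (hrank k)
    obtain ⟨V₁, hV₁, V₂, hV₂, h⟩ := mem_nhds_prod_iff.1 h1
    exact ⟨V₁ ∩ V₂, inter_mem hV₁ hV₂, fun a ha b hb => h (mk_mem_prod ha.1 hb.2)⟩
  choose O hVn hVp using hV
  obtain ⟨t, -, ht⟩ := 𝒟.compact.elim_nhds_subcover O (fun k _ => hVn k)
  have hγ : ∀ n : ℕ, ∃ γ : Γ, γ • F.Fl x n ∈ 𝒟.D := fun n => 𝒟.cover _
  choose γ hγ using hγ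
  have hval : ∀ n, G (γ n • F.Fl x n) = G (γ n • x) := by
    intro n
    rw [F_smul F 𝒟, F_inv F hG hR]
  have hS := hfin (G '' 𝒟.D) (𝒟.compact.image hGc)
  have hS' : Finite {w | w ∈ G '' 𝒟.D ∧ ∃ γ : Γ, w = G (γ • x)} := hS
  have hidx : ∀ n, ∃ k : t, γ n • F.Fl x n ∈ O k := by
    intro n
    obtain ⟨k, hk, hk2⟩ := mem_iUnion₂.1 (ht (hγ n))
    exact ⟨⟨k, hk⟩, hk2⟩
  choose idx hidx using hidx
  let Ψ : ℕ → t × {w | w ∈ G '' 𝒟.D ∧ ∃ γ : Γ, w = G (γ • x)} := fun n =>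
    (idx n, ⟨G (γ n • F.Fl x n), ⟨_, hγ n, rfl⟩, γ n, hval n⟩)
  obtain ⟨n, n', hne, heq⟩ := Finite.exists_ne_map_eq_of_infinite Ψ
  have main : ∀ n n' : ℕ, n < n' → Ψ n = Ψ n' →
      ∃ T : ℝ, 0 < T ∧ ∃ γ : Γ, F.Fl x T = γ • x := by
    intro n n' hlt heq
    have e1 : idx n = idx n' := congrArg Prod.fst heq
    have e2 : G (γ n • F.Fl x n) = G (γ n' • F.Fl x n') :=
      congrArg Subtype.val (congrArg Prod.snd heq)
    obtain ⟨τ, hτ, h⟩ := hVp (idx n) (γ n • F.Fl x n) (hidx n) (γ n' • F.Fl x n')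
      (by rw [e1]; exact hidx n') e2
    have hT : 0 < (n' : ℝ) - n - τ := by
      have h1 : (n : ℝ) + 1 ≤ n' := by exact_mod_cast hlt
      have h2 := (abs_lt.1 hτ).2
      linarith
    refine ⟨(n' : ℝ) - n - τ, hT, (γ n')⁻¹ * γ n, ?_⟩
    -- Fl x n' = γ'⁻¹ γ • Fl x (n + τ)
    have h1 : F.Fl x (n' : ℝ) = ((γ n')⁻¹ * γ n) • F.Fl x (n + τ) := by
      rw [mul_smul, F.add, F_smul F 𝒟 (γ n), h, inv_smul_smul]
    have h2 : F.Fl (F.Fl x (n' : ℝ)) (-(n + τ)) = F.Fl x ((n' : ℝ) - n - τ) := by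
      rw [← F.add]
      congr 1
      ring
    rw [← h2, h1, F_smul F 𝒟, ← F.add, add_neg_cancel, F.zero]
  rcases lt_or_gt_of_ne hne with h | h
  · exact main n n' h heq
  · exact main n' n h heq.symm

end Pool.Agent.Q195.WE
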