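import Mathlib

/-! Lattices: rational points are dense, lattice orbits are locally finite. -/

open scoped Topology
open Set Metric Filter

noncomputable section

namespace Pool.Agent.Q195.WE

variable {V W : Type*} [NormedAddCommGroup V] [NormedSpace ℝ V] [FiniteDimensional ℝ V]
  [NormedAddCommGroup W] [NormedSpace ℝ W] [FiniteDimensional ℝ W]

lemma floor_div (x : ℝ) : Tendsto (fun n : ℕ => ((⌊(n : ℝ) * x⌋ : ℤ) : ℝ) / n) atTop (𝓝 x) := by
  have h0 : Tendsto (fun n : ℕ => x - 1 / (n : ℝ)) atTop (𝓝 x) := by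
    simpa using tendsto_const_nhds.sub (tendsto_one_div_atTop_nhds_zero_nat (𝕜 := ℝ))
  refine tendsto_of_tendsto_of_tendsto_of_le_of_le' h0 tendsto_const_nhds ?_ ?_
  · filter_upwards [eventually_gt_atTop 0] with n hn
    have hn' : (0 : ℝ) < n := by exact_mod_cast hn
    have h1 := (Int.sub_one_lt_floor ((n : ℝ) * x)).le
    rw [le_div_iff₀ hn', sub_mul, one_div, inv_mul_cancel₀ hn'.ne']
    linarith
  · filter_upwards [eventually_gt_atTop 0] with n hn
    have hn' : (0 : ℝ) < n := by exact_mod_cast hn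
    have h1 := Int.floor_le ((n : ℝ) * x)
    rw [div_le_iff₀ hn']
    linarith

set_option linter.unusedSectionVars false

/-- the directions of the first components of the lattice vectors are dense, with integral
denominators -/
lemma exists_rational (Λ : Submodule ℤ (V × W)) (hspan : Submodule.span ℝ (Λ : Set (V × W)) = ⊤)
    {U : Set V} (hU : IsOpen U) (hne : U.Nonempty) :
    ∃ v ∈ Λ, ∃ n : ℕ, 0 < n ∧ ((n : ℝ)⁻¹ • v.1) ∈ U := by
  classical
  obtain ⟨u, hu⟩ := hne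
  let b := Module.Basis.ofSpan hspan.ge
  have hb : ∀ i, b i ∈ Λ := fun i => Module.Basis.ofSpan_subset hspan.ge ⟨i, rfl⟩
  have hfin : Fintype ((linearIndepOn_empty ℝ id).extend (empty_subset (Λ : Set (V × W)))) :=
    FiniteDimensional.fintypeBasisIndex b
  set p : V × W := (u, 0) with hp
  let w : ℕ → V × W := fun n => ∑ i, ((⌊(n : ℝ) * b.repr p i⌋ : ℤ) : ℤ) • b i
  have hw : ∀ n, w n ∈ Λ := fun n => Submodule.sum_mem _ fun i _ => Submodule.smul_mem _ _ (hb i)
  have hlim : Tendsto (fun n : ℕ => ((n : ℝ)⁻¹ • w n)) atTop (𝓝 p) := by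
    have h1 : Tendsto (fun n : ℕ => ∑ i, (((⌊(n : ℝ) * b.repr p i⌋ : ℤ) : ℝ) / n) • b i) atTop
        (𝓝 (∑ i, b.repr p i • b i)) := by
      exact tendsto_finsetSum _ fun i _ => Tendsto.smul_const (floor_div _) _
    rw [b.sum_repr] at h1
    refine h1.congr fun n => ?_
    show _ = (n : ℝ)⁻¹ • ∑ i, _
    rw [Finset.smul_sum]
    refine Finset.sum_congr rfl fun i _ => ?_
    rw [← Int.cast_smul_eq_zsmul ℝ, smul_smul, div_eq_inv_mul]
  have h2 : Tendsto (fun n : ℕ => ((n : ℝ)⁻¹ • w n).1) atTop (𝓝 u) :=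
    (continuous_fst.tendsto p).comp hlim
  obtain ⟨n, hn1, hn2⟩ := ((h2.eventually (hU.mem_nhds hu)).and (eventually_gt_atTop 0)).exists
  exact ⟨w n, hw n, n, hn2, hn1⟩

/-- locally finite orbits -/
lemma finite_orbit (Λ : Submodule ℤ (V × W)) [DiscreteTopology Λ] (v : V × W) (C t : ℝ)
    (ht : 0 < t) (K : Set V) (hK : IsCompact K) {ι : Type*}
    (A : ι → V →ₗ[ℝ] V) (O : ι → W → W) (hO : ∀ i w, ‖O i w‖ ≤ C * ‖w‖)
    (hΛ : ∀ i, (A i v.1, O i v.2) ∈ Λ) :
    {w | w ∈ K ∧ ∃ i, w = A i (t • v.1)}.Finite := by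
  have hcl : IsClosed ((Λ : Set (V × W))) := by
    have : DiscreteTopology Λ.toAddSubgroup := ‹DiscreteTopology Λ›
    exact AddSubgroup.isClosed_of_discrete (H := Λ.toAddSubgroup)
  have hcomp : IsCompact ((Λ : Set (V × W)) ∩ ((fun w : V => t⁻¹ • w) '' K) ×ˢ
      closedBall (0 : W) (C * ‖v.2‖)) :=
    ((hK.image (continuous_const_smul _)).prod (isCompact_closedBall _ _)).inter_left hcl
  have hfin : ((Λ : Set (V × W)) ∩ ((fun w : V => t⁻¹ • w) '' K) ×ˢ
      closedBall (0 : W) (C * ‖v.2‖)).Finite := by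
    have hd : IsDiscrete ((Λ : Set (V × W))) := ⟨‹DiscreteTopology Λ›⟩
    exact hcomp.finite (hd.mono inter_subset_left)
  refine (hfin.image (fun p => t • p.1)).subset ?_
  rintro w ⟨hwK, i, rfl⟩
  refine ⟨(A i v.1, O i v.2), ⟨hΛ i, ?_, ?_⟩, ?_⟩
  · refine ⟨_, hwK, ?_⟩
    show t⁻¹ • A i (t • v.1) = A i v.1
    rw [map_smul, inv_smul_smul₀ ht.ne']
  · rw [mem_closedBall_zero_iff]
    exact hO i _
  · show t • A i v.1 = A i (t • v.1)
    rw [map_smul]

end Pool.Agent.Q195.WE
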