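import Mathlib
import Pool.Agent.Q195.WE.Crit
import Pool.Agent.Q195.WE.Lattice

/-! The cone over the momentum map is a submersion if the momentum and the image of its derivative
span; arithmetic monodromy makes the closed orbits dense. -/

open scoped Topology ContDiff Manifold
open Set Metric Bundle Filter Pool.Agent.Helper186 Pool.Agent.H826R2.Wein Pool.Agent.H826R2

noncomputable section

namespace Pool.Agent.Q195.WE

set_option linter.unusedSectionVars false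

universe u

lemma theta_ker {E V : Type*} [NormedAddCommGroup E] [NormedSpace ℝ E] [FiniteDimensional ℝ E]
    [NormedAddCommGroup V] [NormedSpace ℝ V] [FiniteDimensional ℝ V]
    (hm : Module.finrank ℝ E = Module.finrank ℝ V) (Θ : ℝ × E →ₗ[ℝ] V)
    (hs : LinearMap.range Θ = ⊤) (r : E) (hr0 : r ≠ 0) (hr : Θ (0, r) = 0) (v : E)
    (hv : Θ (0, v) = 0) : ∃ a : ℝ, v = a • r := by
  have h1 := LinearMap.finrank_range_add_finrank_ker Θ
  rw [hs, finrank_top, Module.finrank_prod, Module.finrank_self, hm] at h1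
  have h2 : Module.finrank ℝ (LinearMap.ker Θ) = 1 := by omega
  have h3 : Submodule.span ℝ {((0 : ℝ), r)} = LinearMap.ker Θ := by
    refine Submodule.eq_of_le_of_finrank_eq ?_ ?_
    · rw [Submodule.span_singleton_le_iff_mem]
      exact hr
    · rw [h2, finrank_span_singleton]
      intro h
      exact hr0 (congrArg Prod.snd h)
  have h4 : ((0 : ℝ), v) ∈ LinearMap.ker Θ := hv
  rw [← h3] at h4
  obtain ⟨a, ha⟩ := Submodule.mem_span_singleton.1 h4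
  exact ⟨a, (congrArg Prod.snd ha).symm⟩

variable {E : Type u} [NormedAddCommGroup E] [NormedSpace ℝ E] [FiniteDimensional ℝ E]
  {P : Type*} [TopologicalSpace P] [ChartedSpace E P] [IsManifold 𝓘(ℝ, E) ∞ P] [T2Space P]
  {β : (x : P) → TangentSpace 𝓘(ℝ, E) x →L[ℝ] ℝ} {R : (x : P) → TangentSpace 𝓘(ℝ, E) x}
  {Γ : Type*} [Group Γ] [MulAction Γ P]
  {c : CD β R} (F : HF c (fun _ : P => (1:ℝ)))
  {V : Type*} [NormedAddCommGroup V] [NormedSpace ℝ V] [FiniteDimensional ℝ V]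

/-- the momentum and the image of its derivative span -/
def Spans (G : P → V) : Prop :=
  ∀ (x : P) (w : V), ∃ (s : ℝ) (v : E), w = s • G x + WStmt.D (E' := V) G x v

/-- the derivative of the cone map at the point `(0, x)` -/
def thetaL (G : P → V) (x : P) : ℝ × E →ₗ[ℝ] V :=
  LinearMap.coprod (LinearMap.toSpanSingleton ℝ V (G x))
    ((WStmt.D (E := E) (E' := V) G x : E →L[ℝ] V) : E →ₗ[ℝ] V)

lemma Spans.surj {G : P → V} (h : Spans (E := E) G) (x : P) :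
    LinearMap.range (thetaL (E := E) G x) = ⊤ := by
  rw [LinearMap.range_eq_top]
  intro w
  obtain ⟨s, v, hw⟩ := h x w
  exact ⟨(s, v), hw.symm⟩

lemma Spans.rank (hm : Module.finrank ℝ E = Module.finrank ℝ V) {G : P → V}
    (h : Spans (E := E) G) (c : CD β R)
    (hR : ∀ x, (mfderiv 𝓘(ℝ, E) 𝓘(ℝ, V) G x (R x) : V) = 0) (k : P) (v : TangentSpace 𝓘(ℝ, E) k)
    (hv : (mfderiv 𝓘(ℝ, E) 𝓘(ℝ, V) G k v : V) = 0) : ∃ a : ℝ, v = a • R k := by
  have hRk : (R k : E) ≠ 0 := by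
    intro h
    have h1 := c.reeb.unit k
    have h2 : β k (R k) = β k (0 : E) := congrArg (fun w : E => β k w) h
    rw [h2] at h1
    have h3 : β k (0 : E) = 0 := map_zero (β k)
    rw [h3] at h1
    exact zero_ne_one h1
  have hz : ∀ u : E, (mfderiv 𝓘(ℝ, E) 𝓘(ℝ, V) G k u : V) = 0 → thetaL (E := E) G k (0, u) = 0 := by
    intro u hu
    have hu' : WStmt.D (E := E) (E' := V) G k u = 0 := hu
    show (0 : ℝ) • G k + WStmt.D (E := E) (E' := V) G k u = 0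
    rw [hu', zero_smul, add_zero]
  exact theta_ker hm (thetaL (E := E) G k) (h.surj k) (R k) hRk (hz _ (hR k)) v (hz _ hv)

/-- openness of the cone map -/
lemma Spans.open_cone {G : P → V} (h : Spans (E := E) G)
    (hGs : ContMDiff 𝓘(ℝ, E) 𝓘(ℝ, V) ∞ G) (x₀ : P) {U : Set P} (hU : U ∈ 𝓝 x₀) :
    {w : V | ∃ s : ℝ, ∃ x ∈ U, w = Real.exp s • G x} ∈ 𝓝 (G x₀) := by
  set φ := extChartAt 𝓘(ℝ, E) x₀ with hφ
  set g : E → V := fun y => G (φ.symm y) with hg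
  have hrg : range 𝓘(ℝ, E) = univ := ModelWithCorners.range_eq_univ _
  have hg1 : ContDiffAt ℝ ∞ g (φ x₀) := by
    have h1 := (contMDiffAt_iff.1 (hGs x₀)).2
    rw [hrg, contDiffWithinAt_univ] at h1
    exact h1
  have hg0 : g (φ x₀) = G x₀ := by
    show G (φ.symm (φ x₀)) = G x₀
    rw [φ.left_inv (mem_extChartAt_source x₀)]
  have hg2 : HasStrictFDerivAt g (fderiv ℝ g (φ x₀)) (φ x₀) :=
    hg1.hasStrictFDerivAt (by simp)
  have hg3 : WStmt.D (E := E) (E' := V) G x₀ = fderiv ℝ g (φ x₀) := by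
    have h2 : WStmt.D (E := E) (E' := V) G x₀ =
        fderivWithin ℝ g (range 𝓘(ℝ, E)) (φ x₀) :=
      (hGs.mdifferentiableAt (by simp)).mfderiv
    rw [h2, hrg, fderivWithin_univ]
  -- the cone map in the chart
  let Φ : ℝ × E → V := fun p => Real.exp p.1 • g p.2
  have hΦ : HasStrictFDerivAt Φ
      (Real.exp 0 • ((fderiv ℝ g (φ x₀)).comp (ContinuousLinearMap.snd ℝ ℝ E)) +
        ((Real.exp 0 • ContinuousLinearMap.fst ℝ ℝ E).smulRight (g (φ x₀))))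
      ((0 : ℝ), φ x₀) := by
    have h1 : HasStrictFDerivAt (fun p : ℝ × E => Real.exp p.1)
        (Real.exp 0 • ContinuousLinearMap.fst ℝ ℝ E) ((0 : ℝ), φ x₀) :=
      (hasStrictFDerivAt_fst (𝕜 := ℝ) (p := ((0 : ℝ), φ x₀))).exp
    have h2 : HasStrictFDerivAt (fun p : ℝ × E => g p.2)
        ((fderiv ℝ g (φ x₀)).comp (ContinuousLinearMap.snd ℝ ℝ E)) ((0 : ℝ), φ x₀) :=
      HasStrictFDerivAt.comp ((0 : ℝ), φ x₀) (f := fun p : ℝ × E => p.2) (g := g) hg2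
        hasStrictFDerivAt_snd
    exact h1.smul h2
  have hrange : LinearMap.range ((Real.exp 0 • ((fderiv ℝ g (φ x₀)).comp
      (ContinuousLinearMap.snd ℝ ℝ E)) +
        ((Real.exp 0 • ContinuousLinearMap.fst ℝ ℝ E).smulRight (g (φ x₀))) :
          ℝ × E →L[ℝ] V) : ℝ × E →ₗ[ℝ] V) = ⊤ := by
    have h1 : ((Real.exp 0 • ((fderiv ℝ g (φ x₀)).comp
      (ContinuousLinearMap.snd ℝ ℝ E)) +
        ((Real.exp 0 • ContinuousLinearMap.fst ℝ ℝ E).smulRight (g (φ x₀))) :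
          ℝ × E →L[ℝ] V) : ℝ × E →ₗ[ℝ] V) = thetaL (E := E) G x₀ := by
      refine LinearMap.ext fun p => ?_
      show Real.exp 0 • (fderiv ℝ g (φ x₀) p.2) + (Real.exp 0 • p.1) • g (φ x₀) =
        p.1 • G x₀ + WStmt.D (E := E) (E' := V) G x₀ p.2
      rw [hg3, hg0, Real.exp_zero, one_smul, one_smul, add_comm]
    rw [h1]
    exact h.surj x₀
  have hmap := hΦ.map_nhds_eq_of_surj hrange
  have hΦ0 : Φ ((0 : ℝ), φ x₀) = G x₀ := by
    show Real.exp 0 • g (φ x₀) = _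
    rw [Real.exp_zero, one_smul, hg0]
  rw [hΦ0] at hmap
  rw [← hmap, mem_map]
  have hcont : ContinuousAt (fun p : ℝ × E => φ.symm p.2) ((0 : ℝ), φ x₀) :=
    ContinuousAt.comp (f := fun p : ℝ × E => p.2) (g := φ.symm)
      (continuousAt_extChartAt_symm x₀) continuousAt_snd
  have h1 : ∀ᶠ p : ℝ × E in 𝓝 ((0 : ℝ), φ x₀), φ.symm p.2 ∈ U := by
    apply hcont
    show U ∈ 𝓝 (φ.symm (φ x₀))
    rw [φ.left_inv (mem_extChartAt_source x₀)]
    exact hU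
  filter_upwards [h1] with p hp
  exact ⟨p.1, φ.symm p.2, hp, rfl⟩

/-- **Arithmetic monodromy: closed orbits are dense.** -/
theorem dense_closed (𝒟 : CDeck β Γ) (hm : Module.finrank ℝ E = Module.finrank ℝ V) (G : P → V)
    (hG : ContMDiff 𝓘(ℝ, E) 𝓘(ℝ, V) ∞ G)
    (hR : ∀ x, (mfderiv 𝓘(ℝ, E) 𝓘(ℝ, V) G x (R x) : V) = 0) (h : Spans (E := E) G)
    {W : Type*} [NormedAddCommGroup W] [NormedSpace ℝ W] [FiniteDimensional ℝ W]
    (Λ : Submodule ℤ (V × W)) [DiscreteTopology Λ]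
    (hspan : Submodule.span ℝ (Λ : Set (V × W)) = ⊤) (C : ℝ)
    (hΛ : ∀ γ : Γ, ∃ (A : V →ₗ[ℝ] V) (O : W → W),
      (∀ x : P, G (γ • x) = A (G x)) ∧ (∀ w, ‖O w‖ ≤ C * ‖w‖) ∧ ∀ v ∈ Λ, (A v.1, O v.2) ∈ Λ)
    {U : Set P} (hU : IsOpen U) (hne : U.Nonempty) :
    ∃ x ∈ U, ∃ T : ℝ, 0 < T ∧ ∃ γ : Γ, F.Fl x T = γ • x := by
  obtain ⟨x₀, hx₀⟩ := hne
  have h1 := h.open_cone hG x₀ (hU.mem_nhds hx₀)
  obtain ⟨S, hS1, hS2, hS3⟩ := _root_.mem_nhds_iff.1 h1
  obtain ⟨v, hv, n, hn, hvn⟩ := exists_rational Λ hspan hS2 ⟨_, hS3⟩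
  obtain ⟨s, x, hx, hxe⟩ := hS1 hvn
  choose A O hA hO hΛ using hΛ
  refine ⟨x, hx, crit F 𝒟 G hG hR (fun k w hw => h.rank hm c hR k w hw) x ?_⟩
  intro K hK
  have ht : 0 < (Real.exp s)⁻¹ * (n : ℝ)⁻¹ := by
    have : (0 : ℝ) < n := by exact_mod_cast hn
    positivity
  have hfx : G x = ((Real.exp s)⁻¹ * (n : ℝ)⁻¹) • v.1 := by
    rw [mul_smul, hxe, inv_smul_smul₀ (Real.exp_pos s).ne']
  refine (finite_orbit Λ v C _ ht K hK A O hO fun i => hΛ i v hv).subset ?_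
  rintro w ⟨hwK, γ, rfl⟩
  refine ⟨hwK, γ, ?_⟩
  rw [hA, hfx]

end Pool.Agent.Q195.WE
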