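import Mathlib
import Pool.Agent.Q195.WE.Subm
import Pool.Agent.Helper186.Variation

/-! The momentum map of a left invariant contact form on a Lie group. -/

open scoped Topology ContDiff Manifold
open Set Metric Bundle Filter Pool.Agent.Helper186 Pool.Agent.H826R2 Pool.Agent.H826R2.WStmt

noncomputable section

namespace Pool.Agent.Q195.WE

set_option linter.unusedSectionVars false

universe u

variable {E : Type u} [NormedAddCommGroup E] [NormedSpace ℝ E] [FiniteDimensional ℝ E]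
  {G : Type*} [TopologicalSpace G] [ChartedSpace E G] [Group G] [LieGroup 𝓘(ℝ, E) ∞ G]

/-- the momentum map of a one-form on a Lie group: the value of the form on the right invariant
vector fields -/
def Mom (β : G → Cov E) (g : G) : E →L[ℝ] ℝ :=
  (show E →L[ℝ] ℝ from β g).comp (D (E := E) (E' := E) (fun h : G => h * g) 1)

lemma Mom_apply (β : G → Cov E) (g : G) (X : E) :
    Mom β g X = ev (β g) (D (E := E) (E' := E) (fun h : G => h * g) 1 X) := rfl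

lemma smooth_right (g : G) : ContMDiff 𝓘(ℝ, E) 𝓘(ℝ, E) ∞ (fun h : G => h * g) :=
  contMDiff_mul_right

lemma smooth_left (g : G) : ContMDiff 𝓘(ℝ, E) 𝓘(ℝ, E) ∞ (fun h : G => g * h) :=
  contMDiff_mul_left

lemma D_comp {M₁ M₂ M₃ : Type*} {E₁ E₂ E₃ : Type*} [NormedAddCommGroup E₁] [NormedSpace ℝ E₁]
    [NormedAddCommGroup E₂] [NormedSpace ℝ E₂] [NormedAddCommGroup E₃] [NormedSpace ℝ E₃]
    [TopologicalSpace M₁] [ChartedSpace E₁ M₁] [TopologicalSpace M₂] [ChartedSpace E₂ M₂]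
    [TopologicalSpace M₃] [ChartedSpace E₃ M₃] {g : M₂ → M₃} {f : M₁ → M₂} (x : M₁)
    (hg : MDifferentiableAt 𝓘(ℝ, E₂) 𝓘(ℝ, E₃) g (f x))
    (hf : MDifferentiableAt 𝓘(ℝ, E₁) 𝓘(ℝ, E₂) f x) :
    D (E := E₁) (E' := E₃) (fun y => g (f y)) x =
      (D (E := E₂) (E' := E₃) g (f x)).comp (D (E := E₁) (E' := E₂) f x) :=
  mfderiv_comp x hg hf

lemma D_id (x : G) : D (E := E) (E' := E) (fun y : G => y) x = ContinuousLinearMap.id ℝ E :=
  mfderiv_id

/-- the curve through the identity in the direction `X` -/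
def curve (X : E) (s : ℝ) : G := (extChartAt 𝓘(ℝ, E) (1 : G)).symm (extChartAt 𝓘(ℝ, E) (1 : G) 1 + s • X)

lemma curve_zero (X : E) : curve X 0 = (1 : G) := by
  unfold curve
  rw [zero_smul, add_zero, (extChartAt 𝓘(ℝ, E) (1 : G)).left_inv (mem_extChartAt_source _)]

def curveDom (X : E) : Set ℝ :=
  (fun s : ℝ => extChartAt 𝓘(ℝ, E) (1 : G) 1 + s • X) ⁻¹' (extChartAt 𝓘(ℝ, E) (1 : G)).target

lemma isOpen_curveDom (X : E) : IsOpen (curveDom (G := G) X) :=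
  (isOpen_extChartAt_target _).preimage (by fun_prop)

lemma zero_mem_curveDom (X : E) : (0 : ℝ) ∈ curveDom (G := G) X := by
  show extChartAt 𝓘(ℝ, E) (1 : G) 1 + (0 : ℝ) • X ∈ (extChartAt 𝓘(ℝ, E) (1 : G)).target
  rw [zero_smul, add_zero]
  exact mem_extChartAt_target _

lemma smooth_curve (X : E) :
    ContMDiffOn 𝓘(ℝ, ℝ) 𝓘(ℝ, E) ∞ (curve (G := G) X) (curveDom (G := G) X) := by
  have h1 : ContMDiffOn 𝓘(ℝ, E) 𝓘(ℝ, E) ∞ (extChartAt 𝓘(ℝ, E) (1 : G)).symm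
      (extChartAt 𝓘(ℝ, E) (1 : G)).target := contMDiffOn_extChartAt_symm _
  have h2 : ContMDiff 𝓘(ℝ, ℝ) 𝓘(ℝ, E) ∞ (fun s : ℝ => extChartAt 𝓘(ℝ, E) (1 : G) 1 + s • X) := by
    apply ContDiff.contMDiff
    fun_prop
  exact h1.comp h2.contMDiffOn (fun s hs => hs)

lemma D_curve (X : E) : D (E := ℝ) (E' := E) (curve (G := G) X) 0 1 = X := by
  have h1 : MDifferentiableAt 𝓘(ℝ, E) 𝓘(ℝ, E) (extChartAt 𝓘(ℝ, E) (1 : G)).symm
      (extChartAt 𝓘(ℝ, E) (1 : G) 1 + (0 : ℝ) • X) := by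
    have h1 : ContMDiffOn 𝓘(ℝ, E) 𝓘(ℝ, E) ∞ (extChartAt 𝓘(ℝ, E) (1 : G)).symm
      (extChartAt 𝓘(ℝ, E) (1 : G)).target := contMDiffOn_extChartAt_symm _
    exact (h1.contMDiffAt ((isOpen_extChartAt_target _).mem_nhds
      (zero_mem_curveDom (G := G) X))).mdifferentiableAt (by simp)
  have h2 : HasFDerivAt (fun s : ℝ => extChartAt 𝓘(ℝ, E) (1 : G) 1 + s • X)
      ((1 : ℝ →L[ℝ] ℝ).smulRight X) 0 := by
    have := ((hasFDerivAt_id (𝕜 := ℝ) (0 : ℝ)).smul_const X).const_add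
      (extChartAt 𝓘(ℝ, E) (1 : G) 1)
    exact this
  have h3 := D_comp (g := (extChartAt 𝓘(ℝ, E) (1 : G)).symm)
    (f := fun s : ℝ => extChartAt 𝓘(ℝ, E) (1 : G) 1 + s • X) (0 : ℝ) h1
    h2.differentiableAt.mdifferentiableAt
  have h4 : D (E := ℝ) (E' := E) (fun s : ℝ => extChartAt 𝓘(ℝ, E) (1 : G) 1 + s • X) 0 =
      ((1 : ℝ →L[ℝ] ℝ).smulRight X) := by
    show mfderiv 𝓘(ℝ, ℝ) 𝓘(ℝ, E) _ (0 : ℝ) = _
    rw [mfderiv_eq_fderiv]
    exact h2.fderiv
  have h5 : ∀ e : E, e = extChartAt 𝓘(ℝ, E) (1 : G) 1 → D (E := E) (E' := E)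
      (extChartAt 𝓘(ℝ, E) (1 : G)).symm e X = X := by
    rintro _ rfl
    exact mfderiv_extChartAt_symm_self (J := 𝓘(ℝ, E)) (1 : G) X
  show D (E := ℝ) (E' := E) (fun s : ℝ => (extChartAt 𝓘(ℝ, E) (1 : G)).symm
    (extChartAt 𝓘(ℝ, E) (1 : G) 1 + s • X)) 0 1 = X
  rw [h3, ContinuousLinearMap.comp_apply, h4, ContinuousLinearMap.smulRight_apply]
  show D (E := E) (E' := E) (extChartAt 𝓘(ℝ, E) (1 : G)).symm
    (extChartAt 𝓘(ℝ, E) (1 : G) 1 + (0 : ℝ) • X) ((1 : ℝ) • X) = X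
  rw [one_smul]
  exact h5 _ (by rw [zero_smul, add_zero])

/-- the family of left translations along the curve -/
def vari (X : E) (p : ℝ × G) : G := curve X p.1 * p.2

def variDom (X : E) : Set (ℝ × G) := {p | p.1 ∈ curveDom (G := G) X}

lemma isOpen_variDom (X : E) : IsOpen (variDom (G := G) X) :=
  (isOpen_curveDom X).preimage continuous_fst

lemma smooth_vari (X : E) :
    ContMDiffOn (𝓘(ℝ, ℝ).prod 𝓘(ℝ, E)) 𝓘(ℝ, E) ∞ (vari (G := G) X) (variDom (G := G) X) := by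
  have h1 : ContMDiffOn (𝓘(ℝ, ℝ).prod 𝓘(ℝ, E)) 𝓘(ℝ, E) ∞
      (fun p : ℝ × G => curve (G := G) X p.1) (variDom (G := G) X) :=
    (smooth_curve X).comp contMDiffOn_fst (fun p hp => hp)
  have h2 : ContMDiffOn (𝓘(ℝ, ℝ).prod 𝓘(ℝ, E)) 𝓘(ℝ, E) ∞
      (fun p : ℝ × G => p.2) (variDom (G := G) X) := contMDiffOn_snd
  exact h1.mul h2

lemma vari_zero (X : E) (x : G) : vari X (0, x) = x := by
  show curve X 0 * x = x
  rw [curve_zero, one_mul]

lemma dS_vari (X : E) (x : G) :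
    (dS 𝓘(ℝ, E) (vari (G := G) X) 0 x : E) = D (E := E) (E' := E) (fun h : G => h * x) 1 X := by
  have h1 : MDifferentiableAt 𝓘(ℝ, ℝ) 𝓘(ℝ, E) (curve (G := G) X) 0 :=
    ((smooth_curve X).contMDiffAt ((isOpen_curveDom X).mem_nhds
      (zero_mem_curveDom X))).mdifferentiableAt (by simp)
  have h2 := D_comp (g := fun h : G => h * x) (f := curve (G := G) X) (0 : ℝ)
    ((smooth_right x).mdifferentiableAt (by simp)) h1
  show D (E := ℝ) (E' := E) (fun σ : ℝ => curve (G := G) X σ * x) 0 1 = _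
  rw [h2, ContinuousLinearMap.comp_apply, D_curve, curve_zero]

/-- left invariance -/
def LeftInv (β : G → Cov E) : Prop := ∀ g : G, pull (E' := E) (fun h : G => g * h) β = β

lemma LeftInv.ev {β : G → Cov E} (h : LeftInv β) (g x : G) (u : E) :
    ev (β (g * x)) (D (E := E) (E' := E) (fun y : G => g * y) x u) = ev (β x) u := by
  have h1 := congrArg (fun a : Cov E => WStmt.ev a u) (congrFun (h g) x)
  exact h1

lemma dX_vari (X : E) (σ : ℝ) (x : G) (u : E) :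
    (dX 𝓘(ℝ, E) 𝓘(ℝ, E) (vari (G := G) X) σ x u : E) =
      D (E := E) (E' := E) (fun y : G => curve X σ * y) x u := rfl

lemma mom_eval (β : G → Cov E) (X : E) (x : G) :
    toForm β (vari X (0, x)) (dS 𝓘(ℝ, E) (vari (G := G) X) 0 x) = Mom β x X := by
  have h1 : ∀ y : G, y = x → ∀ w : E, ev (β y) w = ev (β x) w := by
    rintro _ rfl w; rfl
  rw [Mom_apply, ← dS_vari]
  exact h1 _ (vari_zero X x) _

lemma smooth_mom_eval {β : G → Cov E} (hβ : SmoothForm β) (X : E) :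
    ContMDiff 𝓘(ℝ, E) 𝓘(ℝ, ℝ) ∞ (fun x : G => Mom β x X) := by
  intro x
  have h0 : ((0 : ℝ), x) ∈ variDom (G := G) X := zero_mem_curveDom X
  have h1 := contMDiffAt_dS (isOpen_variDom X) (smooth_vari (G := G) X) h0
  have h2 : ContMDiff 𝓘(ℝ, E) (𝓘(ℝ, ℝ).prod 𝓘(ℝ, E)) ∞ (fun y : G => ((0 : ℝ), y)) :=
    contMDiff_const.prodMk contMDiff_id
  have h3 := ContMDiffAt.comp x (g := fun q : ℝ × G =>
    (⟨vari X q, dS 𝓘(ℝ, E) (vari X) q.1 q.2⟩ : TangentBundle 𝓘(ℝ, E) G))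
    (f := fun y : G => ((0 : ℝ), y)) h1 (h2 x)
  have h4 := ContMDiffAt.comp x (g := fun v : TangentBundle 𝓘(ℝ, E) G => ev (β v.1) v.2)
    (hβ _) h3
  refine h4.congr_of_eventuallyEq (Eventually.of_forall fun y => ?_)
  exact (mom_eval β X y).symm

/-- **Cartan formula** for the momentum of a left invariant form -/
lemma cartan {β : G → Cov E} (hβ : SmoothForm β) (hinv : LeftInv β) (X : E) (x : G) (u : E) :
    D (E := E) (E' := ℝ) (fun y : G => Mom β y X) x u =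
      - WStmt.extDer β x (D (E := E) (E' := E) (fun h : G => h * x) 1 X) u := by
  have hβ' : Helper186.SmoothForm (I := 𝓘(ℝ, E)) (toForm β) := hβ
  have h0 : ((0 : ℝ), x) ∈ variDom (G := G) X := zero_mem_curveDom X
  have h1 := hasDerivAt_variation (J := 𝓘(ℝ, E)) hβ' (isOpen_variDom X) (smooth_vari (G := G) X)
    h0 u
  have h2 : (fun σ => toForm β (vari X (σ, x)) (dX 𝓘(ℝ, E) 𝓘(ℝ, E) (vari (G := G) X) σ x u)) =
      fun _ => ev (β x) u := by
    funext σ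
    exact hinv.ev (curve X σ) x u
  rw [h2] at h1
  have h3 := h1.unique (hasDerivAt_const (0 : ℝ) (ev (β x) u))
  have h4 : (fun x' : G => toForm β (vari X (0, x')) (dS 𝓘(ℝ, E) (vari (G := G) X) 0 x')) =
      fun y => Mom β y X := by
    funext y
    exact mom_eval β X y
  rw [h4] at h3
  have h5 : Helper186.extDer 𝓘(ℝ, E) (toForm β) (vari X (0, x))
      (dS 𝓘(ℝ, E) (vari (G := G) X) 0 x) (dX 𝓘(ℝ, E) 𝓘(ℝ, E) (vari (G := G) X) 0 x u) =
      WStmt.extDer β x (D (E := E) (E' := E) (fun h : G => h * x) 1 X) u := by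
    have e1 : (dX 𝓘(ℝ, E) 𝓘(ℝ, E) (vari (G := G) X) 0 x u : E) = u := by
      rw [dX_vari, curve_zero]
      have : (fun y : G => 1 * y) = fun y => y := by funext y; rw [one_mul]
      rw [this, D_id]
      rfl
    have e2 : ∀ y : G, y = x → ∀ a b : E, WStmt.extDer β y a b = WStmt.extDer β x a b := by
      rintro _ rfl a b; rfl
    have e3 := e2 _ (vari_zero X x) (dS 𝓘(ℝ, E) (vari (G := G) X) 0 x : E)
      (dX 𝓘(ℝ, E) 𝓘(ℝ, E) (vari (G := G) X) 0 x u : E)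
    rw [dS_vari, e1] at e3
    refine Eq.trans ?_ e3
    rw [extDer_toForm]
    have e4 : ∀ a b : E, a = D (E := E) (E' := E) (fun h : G => h * x) 1 X → b = u →
      WStmt.extDer β (vari X (0, x)) a b =
        WStmt.extDer β (vari X (0, x)) (D (E := E) (E' := E) (fun h : G => h * x) 1 X) u := by
      rintro _ _ rfl rfl; rfl
    exact e4 _ _ (dS_vari X x) e1
  rw [h5] at h3
  have h6 : WStmt.extDer β x (D (E := E) (E' := E) (fun h : G => h * x) 1 X) u +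
    D (E := E) (E' := ℝ) (fun y : G => Mom β y X) x u = 0 := h3
  linarith

end Pool.Agent.Q195.WE
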