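import Mathlib
import Pool.Agent.Q195.WE.Lie

/-! The momentum map of a left invariant contact form on a Lie group: spanning and
equivariance. -/

open scoped Topology ContDiff Manifold
open Set Metric Bundle Filter Pool.Agent.Helper186 Pool.Agent.H826R2 Pool.Agent.H826R2.WStmt

noncomputable section

namespace Pool.Agent.Q195.WE

set_option linter.unusedSectionVars false

universe u

variable {E : Type u} [NormedAddCommGroup E] [NormedSpace ℝ E] [FiniteDimensional ℝ E]
  {G : Type*} [TopologicalSpace G] [ChartedSpace E G] [Group G] [LieGroup 𝓘(ℝ, E) ∞ G]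

/-- coordinates on the dual -/
def coordL (i : Fin (Module.finrank ℝ E)) : E →L[ℝ] ℝ :=
  LinearMap.toContinuousLinearMap ((Module.finBasis ℝ E).coord i)

lemma dual_expand (ξ : E →L[ℝ] ℝ) :
    ξ = ∑ i, ξ (Module.finBasis ℝ E i) • coordL (E := E) i := by
  ext v
  have h := (Module.finBasis ℝ E).sum_repr v
  conv_lhs => rw [← h]
  rw [map_sum, _root_.sum_apply]
  refine Finset.sum_congr rfl fun i _ => ?_
  rw [map_smul, _root_.smul_apply]
  show (Module.finBasis ℝ E).repr v i * ξ _ = ξ _ * (Module.finBasis ℝ E).repr v i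
  ring

lemma smooth_mom {β : G → Cov E} (hβ : SmoothForm β) :
    ContMDiff 𝓘(ℝ, E) 𝓘(ℝ, E →L[ℝ] ℝ) ∞ (Mom β) := by
  have h1 : Mom β = fun g : G => ∑ i, Mom β g (Module.finBasis ℝ E i) • coordL (E := E) i := by
    funext g
    exact dual_expand _
  rw [h1]
  have h2 : ContMDiff 𝓘(ℝ, E) 𝓘(ℝ, Fin (Module.finrank ℝ E) → ℝ) ∞
      (fun g : G => fun i => Mom β g (Module.finBasis ℝ E i)) :=
    contMDiff_pi_space.2 fun i => smooth_mom_eval hβ _
  have h3 : ContDiff ℝ ∞ (fun c : Fin (Module.finrank ℝ E) → ℝ =>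
      ∑ i, c i • coordL (E := E) i) := by
    apply ContDiff.sum
    intro i _
    exact (contDiff_apply ℝ ℝ i).smul contDiff_const
  exact h3.contMDiff.comp h2

lemma D_mom_apply {β : G → Cov E} (hβ : SmoothForm β) (x : G) (v X : E) :
    D (E := E) (E' := E →L[ℝ] ℝ) (Mom β) x v X =
      D (E := E) (E' := ℝ) (fun y : G => Mom β y X) x v := by
  have h1 : MDifferentiableAt 𝓘(ℝ, E →L[ℝ] ℝ) 𝓘(ℝ, ℝ) (fun ξ : E →L[ℝ] ℝ => ξ X) (Mom β x) :=
    (ContinuousLinearMap.apply ℝ ℝ X).differentiableAt.mdifferentiableAt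
  have h2 := D_comp (g := fun ξ : E →L[ℝ] ℝ => ξ X) (f := Mom β) x h1
    ((smooth_mom hβ).mdifferentiableAt (by simp))
  rw [h2, ContinuousLinearMap.comp_apply]
  have h3 : D (E := E →L[ℝ] ℝ) (E' := ℝ) (fun ξ : E →L[ℝ] ℝ => ξ X) (Mom β x) =
      ContinuousLinearMap.apply ℝ ℝ X := by
    show mfderiv 𝓘(ℝ, E →L[ℝ] ℝ) 𝓘(ℝ, ℝ) _ (Mom β x) = _
    rw [mfderiv_eq_fderiv]
    exact (ContinuousLinearMap.apply ℝ ℝ X).fderiv
  rw [h3]
  rfl

lemma D_right_inj (x : G) (X : E) (h : D (E := E) (E' := E) (fun y : G => y * x) 1 X = 0) :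
    X = 0 := by
  have h1 := D_comp (E₁ := E) (E₂ := E) (E₃ := E) (g := fun y : G => y * x⁻¹)
    (f := fun y : G => y * x) (1 : G)
    ((smooth_right x⁻¹).mdifferentiableAt (by simp)) ((smooth_right x).mdifferentiableAt (by simp))
  have h2 : (fun y : G => y * x * x⁻¹) = fun y => y := by
    funext y
    rw [mul_inv_cancel_right]
  rw [h2, D_id] at h1
  have h3 := DFunLike.congr_fun h1 X
  rw [ContinuousLinearMap.comp_apply, h, map_zero] at h3
  exact h3

lemma spans_mom {β : G → Cov E} (hβ : SmoothForm β) (hinv : LeftInv β)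
    (hnd : ∀ (x : G) (u : E), ev (β x) u = 0 →
      (∀ v, ev (β x) v = 0 → WStmt.extDer β x u v = 0) → u = 0) :
    Spans (E := E) (Mom β) := by
  intro x w
  have hs : LinearMap.range (thetaL (E := E) (Mom β) x) = ⊤ := by
    by_contra hne
    obtain ⟨l, hl0, hl⟩ := Submodule.exists_le_ker_of_lt_top _ (lt_top_iff_ne_top.2 hne)
    apply hl0
    set X : E := ∑ i, l (coordL i) • Module.finBasis ℝ E i with hX
    have hlX : ∀ ξ : E →L[ℝ] ℝ, l ξ = ξ X := by
      intro ξ
      conv_lhs => rw [dual_expand ξ, map_sum]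
      rw [hX, map_sum]
      refine Finset.sum_congr rfl fun i _ => ?_
      rw [map_smul, map_smul, smul_eq_mul, smul_eq_mul, mul_comm]
    have h1 : ∀ p : ℝ × E, (thetaL (E := E) (Mom β) x p) X = 0 := fun p => by
      rw [← hlX]
      exact LinearMap.mem_ker.1 (hl ⟨p, rfl⟩)
    have h2 : Mom β x X = 0 := by
      have h := h1 (1, 0)
      have e : thetaL (E := E) (Mom β) x (1, 0) = Mom β x := by
        show (1 : ℝ) • Mom β x + D (E := E) (E' := E →L[ℝ] ℝ) (Mom β) x 0 = _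
        rw [one_smul, map_zero, add_zero]
      rw [e] at h
      exact h
    have h3 : ∀ v : E, WStmt.extDer β x (D (E := E) (E' := E) (fun h : G => h * x) 1 X) v = 0 := by
      intro v
      have h := h1 (0, v)
      have e : thetaL (E := E) (Mom β) x (0, v) = D (E := E) (E' := E →L[ℝ] ℝ) (Mom β) x v := by
        show (0 : ℝ) • Mom β x + D (E := E) (E' := E →L[ℝ] ℝ) (Mom β) x v = _
        rw [zero_smul, zero_add]
      rw [e, D_mom_apply hβ, cartan hβ hinv] at h
      linarith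
    have h4 := D_right_inj x X (hnd x _ h2 fun v _ => h3 v)
    refine LinearMap.ext fun ξ => ?_
    rw [hlX, h4, map_zero]
    rfl
  obtain ⟨⟨s, v⟩, hp⟩ := LinearMap.range_eq_top.1 hs w
  exact ⟨s, v, hp.symm⟩

lemma mom_first {β : G → Cov E} (hβ : SmoothForm β) (hinv : LeftInv β) (x : G) (r : E)
    (hr : ∀ v, WStmt.extDer β x r v = 0) : D (E := E) (E' := E →L[ℝ] ℝ) (Mom β) x r = 0 := by
  ext X
  rw [D_mom_apply hβ, cartan hβ hinv]
  have h1 : ∀ u v : E, WStmt.extDer β x u v = - WStmt.extDer β x v u := by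
    intro u v
    unfold WStmt.extDer
    ring
  rw [h1, hr]
  simp

/-- the adjoint action of a Lie group on its Lie algebra, the tangent space at the identity -/
def adj (g : G) : E →L[ℝ] E := D (E := E) (E' := E) (fun x : G => g * x * g⁻¹) 1

lemma mom_equi {β : G → Cov E} (hinv : LeftInv β) (γ g : G) :
    Mom β (γ * g) = (Mom β g).comp (adj (E := E) γ⁻¹) := by
  ext X
  rw [Mom_apply, ContinuousLinearMap.comp_apply, Mom_apply]
  have e1 : (fun h : G => h * (γ * g)) = fun h : G => γ * ((γ⁻¹ * h * γ⁻¹⁻¹) * g) := by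
    funext h
    group
  have hc : MDifferentiableAt 𝓘(ℝ, E) 𝓘(ℝ, E) (fun h : G => γ⁻¹ * h * γ⁻¹⁻¹) 1 :=
    ((smooth_right γ⁻¹⁻¹).comp (smooth_left γ⁻¹)).mdifferentiableAt (by simp)
  have hc2 : MDifferentiableAt 𝓘(ℝ, E) 𝓘(ℝ, E) (fun h : G => (γ⁻¹ * h * γ⁻¹⁻¹) * g) 1 :=
    ((smooth_right g).comp ((smooth_right γ⁻¹⁻¹).comp (smooth_left γ⁻¹))).mdifferentiableAt
      (by simp)
  rw [e1]
  rw [D_comp (g := fun y : G => γ * y) (f := fun h : G => (γ⁻¹ * h * γ⁻¹⁻¹) * g) (1 : G)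
    ((smooth_left γ).mdifferentiableAt (by simp)) hc2,
    D_comp (g := fun y : G => y * g) (f := fun h : G => γ⁻¹ * h * γ⁻¹⁻¹) (1 : G)
    ((smooth_right g).mdifferentiableAt (by simp)) hc]
  rw [ContinuousLinearMap.comp_apply, ContinuousLinearMap.comp_apply]
  have e2 : γ⁻¹ * 1 * γ⁻¹⁻¹ = (1 : G) := by group
  have e3 : ∀ y : G, y = g → ∀ w : E, ev (β (γ * g)) (D (E := E) (E' := E) (fun z : G => γ * z) y w)
      = ev (β g) w := by
    rintro _ rfl w
    exact hinv.ev γ _ w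
  rw [e3 _ (by group)]
  rw [e2]
  rfl

end Pool.Agent.Q195.WE
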