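import Mathlib
import Pool.Agent.Q195.WE.Lie2

/-! Closed Reeb orbits on closed contact manifolds with a momentum map on a covering. -/

open scoped Topology ContDiff Manifold
open Set Pool.Agent.H826R2 Pool.Agent.H826R2.WStmt

noncomputable section

namespace Pool.Agent.Q195.WE

set_option linter.unusedSectionVars false

universe u

section defs

variable {E : Type*} [NormedAddCommGroup E] [NormedSpace ℝ E]
  {M : Type*} [TopologicalSpace M] [ChartedSpace E M]
  {P : Type*} [TopologicalSpace P] [ChartedSpace E P]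
  {V : Type*} [NormedAddCommGroup V] [NormedSpace ℝ V]

/-- the points of `M` on the periodic orbits of the vector field `R` -/
def ClosedPoints (R : M → E) : Set M :=
  {y | ∃ (c : ℝ → M) (T : ℝ), IsPeriodicOrbit R c T ∧ c 0 = y}

/-- a smooth map `F` on `P` which is constant along the orbits of the lift of the vector field `R`
on `M` under `q : P → M` -/
structure IsInvariantMap (q : P → M) (R : M → E) (F : P → V) : Prop where
  smooth : ContMDiff 𝓘(ℝ, E) 𝓘(ℝ, V) ∞ F
  inv : ∀ (x : P) (r : E), D (E' := E) q x r = R (q x) → D (E' := V) F x r = 0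

/-- the map `F` separates the directions transverse to the lift of `R` -/
def MaximalRank (q : P → M) (R : M → E) (F : P → V) : Prop :=
  ∀ (x : P) (r : E), D (E' := V) F x r = 0 → ∃ a : ℝ, D (E' := E) q x r = a • R (q x)

/-- at each point, `V` is spanned by the value of `F` and the image of its derivative -/
def SpansV (E : Type*) [NormedAddCommGroup E] [NormedSpace ℝ E] {P : Type*} [TopologicalSpace P]
    [ChartedSpace E P] {V : Type*} [NormedAddCommGroup V] [NormedSpace ℝ V] (F : P → V) : Prop :=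
  ∀ (x : P) (w : V), ∃ (s : ℝ) (v : E), w = s • F x + D (E' := V) F x v

/-- `Λ` is a discrete subgroup of `V × ℝᵏ` and each `γ` acts on the values of `F` by a linear map
`A` such that `A × O` maps `Λ` into itself for a suitable map `O` of `ℝᵏ` with `|O w| ≤ C |w|`, where
`C` does not depend on `γ`. -/
def PreservesLattice (Γ : Type*) [Group Γ] [MulAction Γ P] (F : P → V) {k : ℕ}
    (Λ : Submodule ℤ (V × (Fin k → ℝ))) : Prop :=
  DiscreteTopology Λ ∧ ∃ C : ℝ, ∀ γ : Γ, ∃ (A : V →ₗ[ℝ] V) (O : (Fin k → ℝ) → (Fin k → ℝ)),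
    (∀ x : P, F (γ • x) = A (F x)) ∧ (∀ w, ‖O w‖ ≤ C * ‖w‖) ∧ ∀ v ∈ Λ, (A v.1, O v.2) ∈ Λ

/-- The monodromy of `F` is arithmetic: it preserves a lattice (discrete subgroup spanning the space)
of `V × ℝᵏ`, for some `k`, in the sense of `PreservesLattice`. -/
def ArithmeticMonodromy (Γ : Type*) [Group Γ] [MulAction Γ P] (F : P → V) : Prop :=
  ∃ (k : ℕ) (Λ : Submodule ℤ (V × (Fin k → ℝ))),
    Submodule.span ℝ (Λ : Set (V × (Fin k → ℝ))) = ⊤ ∧ PreservesLattice Γ F Λ

/-- the adjoint action of a Lie group on the tangent space at the identity -/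
def Ad {G : Type*} [TopologicalSpace G] [ChartedSpace E G] [Group G] (g : G) : E →L[ℝ] E :=
  D (E := E) (E' := E) (fun x : G => g * x * g⁻¹) 1

/-- The subgroup `Γ` of the Lie group `G` is arithmetic in the coadjoint representation: there is a
lattice in `𝔤* × ℝᵏ`, for some `k`, which `Ad*(γ) × O` maps into itself for each `γ` in `Γ` and a
suitable map `O` of `ℝᵏ` with `|O w| ≤ C |w|`, where `C` does not depend on `γ`. -/
def ArithmeticCoadjoint (E : Type*) [NormedAddCommGroup E] [NormedSpace ℝ E]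
    {G : Type*} [TopologicalSpace G] [ChartedSpace E G] [Group G]
    (Γ : Subgroup G) : Prop :=
  ∃ (k : ℕ) (Λ : Submodule ℤ ((E →L[ℝ] ℝ) × (Fin k → ℝ))) (C : ℝ), DiscreteTopology Λ ∧
    Submodule.span ℝ (Λ : Set ((E →L[ℝ] ℝ) × (Fin k → ℝ))) = ⊤ ∧
    ∀ γ ∈ Γ, ∃ O : (Fin k → ℝ) → (Fin k → ℝ), (∀ w, ‖O w‖ ≤ C * ‖w‖) ∧
      ∀ v ∈ Λ, (v.1.comp (Ad (E := E) γ), O v.2) ∈ Λ

/-- the one-form `β` on the group `G` is left invariant -/
def IsLeftInvariant {G : Type*} [TopologicalSpace G] [ChartedSpace E G] [Group G]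
    (β : G → Cov E) : Prop :=
  ∀ g : G, pull (E' := E) (fun h : G => g * h) β = β

end defs

variable {E : Type u} [NormedAddCommGroup E] [NormedSpace ℝ E] [FiniteDimensional ℝ E]
  {M : Type*} [TopologicalSpace M] [ChartedSpace E M] [IsManifold 𝓘(ℝ, E) ∞ M]
  [T2Space M] [CompactSpace M]
  {P : Type*} [TopologicalSpace P] [ChartedSpace E P] [IsManifold 𝓘(ℝ, E) ∞ P]
  [T2Space P] [SigmaCompactSpace P]
  {V : Type*} [NormedAddCommGroup V] [NormedSpace ℝ V] [FiniteDimensional ℝ V]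

/-- the lifted situation -/
lemma setup {α : M → Cov E} (hα : IsContact α) {R : M → E} (hR : IsReeb α R)
    {Γ : Type*} [Group Γ] [MulAction Γ P] {q : P → M} (hq : IsQuotientMap E q Γ) :
    ∃ (Rl : (x : P) → TangentSpace 𝓘(ℝ, E) x)
      (c : Wein.CD (Helper186.pullForm 𝓘(ℝ, E) 𝓘(ℝ, E) q (toForm α)) Rl)
      (_ : Wein.CDeck (Helper186.pullForm 𝓘(ℝ, E) 𝓘(ℝ, E) q (toForm α)) Γ)
      (F : Wein.HF c (fun _ : P => (1:ℝ))),
      (∀ x, D (E := E) (E' := E) q x (Rl x) = R (q x)) ∧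
      (∀ (x : P) (r : E), D (E := E) (E' := E) q x r = R (q x) → r = Rl x) ∧
      (∀ (x : P) (r : E) (a : ℝ), r = a • (Rl x : E) → D (E := E) (E' := E) q x r = a • R (q x)) ∧
      (∀ (x : P) (T : ℝ), 0 < T → (∃ γ : Γ, F.Fl x T = γ • x) → q x ∈ ClosedPoints R) := by
  have hq' := hq.toWein
  have hα' := hα.toWein
  have hR' := hR.toWein
  have hcP := hq'.isContact_pull hα'
  have hRP := hq'.isReeb_lift hα' hR'
  obtain ⟨𝒟⟩ := hq'.nonempty_cdeck (α := toForm α)
  obtain ⟨F⟩ := exists_RF (⟨hcP, hRP⟩ : Wein.CD _ _) 𝒟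
  refine ⟨_, ⟨hcP, hRP⟩, 𝒟, F, fun x => hq'.liftField_spec _ x, ?_, ?_, ?_⟩
  · intro x r hr
    have h1 : D (E := E) (E' := E) q x (Wein.liftField hq' (fun x => R x) x) = R (q x) :=
      hq'.liftField_spec _ x
    exact hq'.inj x (hr.trans h1.symm)
  · rintro x _ a rfl
    have h1 : D (E := E) (E' := E) q x (Wein.liftField hq' (fun x => R x) x) = R (q x) :=
      hq'.liftField_spec _ x
    exact (map_smul (D (E := E) (E' := E) q x) a
      (Wein.liftField hq' (fun x => R x) x : E)).trans (congrArg (fun w : E => a • w) h1)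
  · rintro x T hT ⟨γ, hγ⟩
    refine ⟨fun t => q (F.Fl x t), T, ⟨hT, ?_, ?_⟩, congrArg q (F.zero x)⟩
    · intro t
      have h2 := HasMFDerivAt.comp t (g := q) (f := F.Fl x) (hq'.mdiff (F.Fl x t)).hasMFDerivAt
        (F_int F x t)
      refine h2.congr_mfderiv ?_
      refine ContinuousLinearMap.ext fun (r : ℝ) => ?_
      have h3 : D (E := E) (E' := E) q (F.Fl x t)
          (Wein.liftField hq' (fun x => R x) (F.Fl x t)) = R (q (F.Fl x t)) :=
        hq'.liftField_spec _ _
      exact (map_smul (D (E := E) (E' := E) q (F.Fl x t)) r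
        (Wein.liftField hq' (fun x => R x) (F.Fl x t) : E)).trans
        (congrArg (fun w : E => r • w) h3)
    · intro t
      show q (F.Fl x (t + T)) = q (F.Fl x t)
      have h1 : F.Fl x (t + T) = γ • F.Fl x t := by
        rw [add_comm, F.add, hγ, F_smul F 𝒟]
      rw [h1]
      exact ((hq.fibre _ _).2 ⟨γ, rfl⟩).symm

/-- the criterion -/
theorem closed_of_finite {α : M → Cov E} (hα : IsContact α) {R : M → E} (hR : IsReeb α R)
    {Γ : Type*} [Group Γ] [MulAction Γ P] {q : P → M} (hq : IsQuotientMap E q Γ)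
    {F : P → V} (hF : IsInvariantMap q R F) (hrank : MaximalRank q R F) (x : P)
    (hfin : ∀ K : Set V, IsCompact K → {w | w ∈ K ∧ ∃ γ : Γ, w = F (γ • x)}.Finite) :
    q x ∈ ClosedPoints R := by
  obtain ⟨Rl, c, 𝒟, Fl, h1, h2, h3, h4⟩ := setup hα hR hq
  have hinj : ∀ (x : P) (r s : E), D (E := E) (E' := E) q x r = D (E := E) (E' := E) q x s →
      r = s := fun x r s h => hq.toWein.inj x h
  obtain ⟨T, hT, h5⟩ := crit Fl 𝒟 F hF.smooth (fun y => hF.inv y _ (h1 y)) (fun k v hv => by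
    obtain ⟨a, ha⟩ := hrank k v hv
    refine ⟨a, hinj k _ _ ?_⟩
    rw [ha]
    exact (h3 k _ a rfl).symm) x hfin
  exact h4 x T hT h5

/-- orbits with rational momentum are closed -/
theorem closed_of_rational {α : M → Cov E} (hα : IsContact α) {R : M → E} (hR : IsReeb α R)
    {Γ : Type*} [Group Γ] [MulAction Γ P] {q : P → M} (hq : IsQuotientMap E q Γ)
    {F : P → V} (hF : IsInvariantMap q R F) (hrank : MaximalRank q R F) {k : ℕ}
    {Λ : Submodule ℤ (V × (Fin k → ℝ))} (hΛ : PreservesLattice Γ F Λ) (x : P)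
    (v : V × (Fin k → ℝ)) (hv : v ∈ Λ) (t : ℝ) (hx : F x = t • v.1) : q x ∈ ClosedPoints R := by
  obtain ⟨hd, C, h⟩ := hΛ
  choose A O hA hO hAO using h
  refine closed_of_finite hα hR hq hF hrank x fun K hK => ?_
  have main : ∀ (s : ℝ) (w : V × (Fin k → ℝ)), w ∈ Λ → 0 < s → F x = s • w.1 →
      {u | u ∈ K ∧ ∃ γ : Γ, u = F (γ • x)}.Finite := by
    intro s w hw hs hsw
    refine (finite_orbit Λ w C s hs K hK A O hO fun i => hAO i w hw).subset ?_
    rintro u ⟨huK, γ, rfl⟩
    refine ⟨huK, γ, ?_⟩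
    rw [hA, hsw]
  rcases lt_trichotomy t 0 with ht | ht | ht
  · refine main (-t) (-v) (Λ.neg_mem hv) (by linarith) ?_
    rw [hx, Prod.fst_neg, smul_neg, neg_smul, neg_neg]
  · refine (finite_singleton (0 : V)).subset ?_
    rintro u ⟨-, γ, rfl⟩
    rw [mem_singleton_iff, hA, hx, ht, zero_smul, map_zero]
  · exact main t v hv ht hx

/-- arithmetic monodromy -/
theorem dense_of_arithmetic {α : M → Cov E} (hα : IsContact α) {R : M → E} (hR : IsReeb α R)
    {Γ : Type*} [Group Γ] [MulAction Γ P] {q : P → M} (hq : IsQuotientMap E q Γ)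
    {F : P → V} (hF : IsInvariantMap q R F) (hdim : Module.finrank ℝ E = Module.finrank ℝ V)
    (hs : SpansV E F) (hΛ : ArithmeticMonodromy Γ F) : Dense (ClosedPoints R) := by
  obtain ⟨Rl, c, 𝒟, Fl, h1, h2, h3, h4⟩ := setup hα hR hq
  obtain ⟨k, Λ, hspan, hdisc, C, hγ⟩ := hΛ
  rw [dense_iff_inter_open]
  rintro U hU ⟨y, hy⟩
  obtain ⟨x₀, rfl⟩ := hq.surj y
  have hqc : Continuous q := hq.toWein.contMDiff.continuous
  obtain ⟨x, hx, T, hT, h5⟩ := dense_closed Fl 𝒟 hdim F hF.smooth (fun y => hF.inv y _ (h1 y)) hs Λ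
    hspan C hγ (hU.preimage hqc) ⟨x₀, hy⟩
  exact ⟨q x, hx, h4 x T hT h5⟩

/-- left invariant contact forms on compact quotients by arithmetic groups -/
theorem dense_of_lie {α : M → Cov E} (hα : IsContact α) {R : M → E} (hR : IsReeb α R)
    {G : Type*} [TopologicalSpace G] [ChartedSpace E G] [Group G] [LieGroup 𝓘(ℝ, E) ∞ G]
    [T2Space G] [SigmaCompactSpace G] {Γ : Subgroup G} {q : G → M} (hq : IsQuotientMap E q Γ)
    (hinv : IsLeftInvariant (pull (E := E) q α)) (hΛ : ArithmeticCoadjoint E Γ) :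
    Dense (ClosedPoints R) := by
  have hq' := hq.toWein
  have hα' := hα.toWein
  have hR' := hR.toWein
  have hcP := hq'.isContact_pull hα'
  have hRP := hq'.isReeb_lift hα' hR'
  have hsm : SmoothForm (pull (E := E) q α) := hcP.smooth
  have hli : LeftInv (pull (E := E) q α) := hinv
  refine dense_of_arithmetic hα hR hq (F := Mom (pull (E := E) q α)) ?_ ?_ ?_ ?_
  · refine ⟨smooth_mom hsm, fun x r hr => ?_⟩
    apply mom_first hsm hli
    intro v
    have h1 : D (E := E) (E' := E) q x (Wein.liftField hq' (fun x => R x) x) = R (q x) :=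
      hq'.liftField_spec _ x
    have h2 : r = Wein.liftField hq' (fun x => R x) x := hq'.inj x (hr.trans h1.symm)
    rw [h2]
    exact hRP.kernel x v
  · have h1 : Module.finrank ℝ (E →L[ℝ] ℝ) = Module.finrank ℝ (E →ₗ[ℝ] ℝ) :=
      (LinearEquiv.finrank_eq (LinearMap.toContinuousLinearMap (𝕜 := ℝ) (E := E) (F' := ℝ))).symm
    rw [h1]
    exact (Subspace.dual_finrank_eq (K := ℝ) (V := E)).symm
  · exact spans_mom hsm hli fun x u hu hv => hcP.nondeg x u hu hv
  · obtain ⟨k, Λ, C, hd, hspan, h⟩ := hΛ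
    refine ⟨k, Λ, hspan, hd, C, fun γ => ?_⟩
    obtain ⟨O, hO, hO2⟩ := h _ (Γ.inv_mem γ.2)
    refine ⟨{ toFun := fun ξ => ξ.comp (Ad (E := E) ((γ : G)⁻¹)),
              map_add' := fun ξ η => ContinuousLinearMap.add_comp _ _ _,
              map_smul' := fun a ξ => ContinuousLinearMap.smul_comp _ _ _ }, O,
      fun x => mom_equi hli (γ : G) x, hO, hO2⟩

end Pool.Agent.Q195.WE
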